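import Pool.Agent.Y228.HX.Stm

set_option autoImplicit false

/-! # HX-LP: the regular triangulation of a compact face -/

namespace Pool.Agent.Y921.HX

open Pool.Agent.Y228.HX

/-- Algebraic Farkas lemma (Bartl's induction; as in TH216.MF.FarkasQ). -/
theorem farkas_fin {U : Type*} [AddCommGroup U] [Module ℚ U] :
    ∀ (m : ℕ) (ℓ : Fin m → (U →ₗ[ℚ] ℚ)) (f : U →ₗ[ℚ] ℚ),
      (∀ x, (∀ i, ℓ i x ≤ 0) → f x ≤ 0) →
      ∃ w : Fin m → ℚ, (∀ i, 0 ≤ w i) ∧ ∀ x, f x = ∑ i, w i * ℓ i x := by
  intro m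
  induction m with
  | zero =>
    intro ℓ f h
    refine ⟨fun i => 0, fun i => le_refl _, fun x => ?_⟩
    have h1 := h x (fun i => i.elim0)
    have h2 := h (-x) (fun i => i.elim0)
    rw [map_neg] at h2
    simp
    linarith
  | succ m ih =>
    intro ℓ f h
    by_cases hA : ∀ x, (∀ i : Fin m, ℓ i.castSucc x ≤ 0) → f x ≤ 0
    · obtain ⟨w, hw, hf⟩ := ih (fun i => ℓ i.castSucc) f hA
      refine ⟨Fin.snoc w 0, ?_, ?_⟩
      · intro i
        refine Fin.lastCases ?_ (fun j => ?_) i
        · simp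
        · simpa using hw j
      · intro x
        rw [Fin.sum_univ_castSucc]
        simp [hf x]
    · push Not at hA
      obtain ⟨x0, hx0, hfx0⟩ := hA
      have hlast : 0 < ℓ (Fin.last m) x0 := by
        by_contra hneg
        push Not at hneg
        have : f x0 ≤ 0 := h x0 (fun i => by
          refine Fin.lastCases ?_ (fun j => ?_) i
          · exact hneg
          · exact hx0 j)
        linarith
      set t : ℚ := ℓ (Fin.last m) x0 with ht
      obtain ⟨w, hw, hf⟩ := ih
        (fun i => ℓ i.castSucc - (ℓ i.castSucc x0 / t) • ℓ (Fin.last m))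
        (f - (f x0 / t) • ℓ (Fin.last m)) (by
          intro x hx
          have key : f (x - (ℓ (Fin.last m) x / t) • x0) ≤ 0 := by
            apply h
            intro i
            refine Fin.lastCases ?_ (fun j => ?_) i
            · rw [map_sub, map_smul, smul_eq_mul, ← ht, div_mul_cancel₀ _ hlast.ne', sub_self]
            · have := hx j
              simp only [LinearMap.sub_apply, LinearMap.smul_apply, smul_eq_mul] at this
              rw [map_sub, map_smul, smul_eq_mul]
              have e : ℓ (Fin.last m) x / t * ℓ j.castSucc x0 =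
                ℓ j.castSucc x0 / t * ℓ (Fin.last m) x := by ring
              rw [e]
              exact this
          rw [map_sub, map_smul, smul_eq_mul] at key
          simp only [LinearMap.sub_apply, LinearMap.smul_apply, smul_eq_mul]
          have e : ℓ (Fin.last m) x / t * f x0 = f x0 / t * ℓ (Fin.last m) x := by ring
          rw [e] at key
          exact key)
      refine ⟨Fin.snoc w (f x0 / t - ∑ i, w i * (ℓ i.castSucc x0 / t)), ?_, ?_⟩
      · intro i
        refine Fin.lastCases ?_ (fun j => ?_) i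
        · simp only [Fin.snoc_last]
          have h1 : 0 < f x0 / t := div_pos hfx0 hlast
          have h2 : ∑ i, w i * (ℓ i.castSucc x0 / t) ≤ 0 := by
            apply Finset.sum_nonpos
            intro i _
            apply mul_nonpos_of_nonneg_of_nonpos (hw i)
            exact div_nonpos_of_nonpos_of_nonneg (hx0 i) hlast.le
          linarith
        · simpa using hw j
      · intro x
        have hx := hf x
        simp only [LinearMap.sub_apply, LinearMap.smul_apply, smul_eq_mul] at hx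
        rw [Fin.sum_univ_castSucc]
        simp only [Fin.snoc_castSucc, Fin.snoc_last]
        have e : ∑ i, w i * (ℓ i.castSucc x - ℓ i.castSucc x0 / t * ℓ (Fin.last m) x)
            = ∑ i, w i * ℓ i.castSucc x - (∑ i, w i * (ℓ i.castSucc x0 / t)) * ℓ (Fin.last m) x := by
          rw [Finset.sum_mul, ← Finset.sum_sub_distrib]
          refine Finset.sum_congr rfl fun i _ => ?_
          ring
        rw [e] at hx
        linarith

/-- Farkas with any finite index type -/
theorem farkas_type {U : Type*} [AddCommGroup U] [Module ℚ U] {ι : Type*} [Fintype ι]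
    (ℓ : ι → (U →ₗ[ℚ] ℚ)) (f : U →ₗ[ℚ] ℚ) (h : ∀ x, (∀ i, ℓ i x ≤ 0) → f x ≤ 0) :
    ∃ w : ι → ℚ, (∀ i, 0 ≤ w i) ∧ ∀ x, f x = ∑ i, w i * ℓ i x := by
  obtain ⟨w, hw, hf⟩ := farkas_fin (Fintype.card ι) (fun k => ℓ ((Fintype.equivFin ι).symm k)) f
    (fun x hx => h x fun i => by simpa using hx (Fintype.equivFin ι i))
  refine ⟨fun i => w (Fintype.equivFin ι i), fun i => hw _, fun x => ?_⟩
  rw [hf x]
  exact Fintype.sum_equiv (Fintype.equivFin ι).symm _ _ (fun k => by simp)

/-- Farkas with free variables -/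
theorem farkas_free {U : Type*} [AddCommGroup U] [Module ℚ U] {ι P : Type*} [Fintype ι]
    [Fintype P] (ℓ : ι → (U →ₗ[ℚ] ℚ)) (d : P → (U →ₗ[ℚ] ℚ)) (f : U →ₗ[ℚ] ℚ)
    (h : ∀ x, (∀ i, ℓ i x ≤ 0) → (∀ p, d p x = 0) → f x ≤ 0) :
    ∃ (w : ι → ℚ) (c : P → ℚ), (∀ i, 0 ≤ w i) ∧
      ∀ x, f x = ∑ i, w i * ℓ i x + ∑ p, c p * d p x := by
  obtain ⟨w, hw, hf⟩ := farkas_type (ι := ι ⊕ (P ⊕ P))
    (Sum.elim ℓ (Sum.elim d fun p => -d p)) f (fun x hx => h x (fun i => hx (Sum.inl i))
      (fun p => le_antisymm (hx (Sum.inr (Sum.inl p))) (by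
        have := hx (Sum.inr (Sum.inr p))
        simp only [Sum.elim_inr, LinearMap.neg_apply] at this
        linarith)))
  refine ⟨fun i => w (Sum.inl i), fun p => w (Sum.inr (Sum.inl p)) - w (Sum.inr (Sum.inr p)),
    fun i => hw _, fun x => ?_⟩
  rw [hf x]
  simp only [Fintype.sum_sum_type, Sum.elim_inl, Sum.elim_inr, LinearMap.neg_apply, sub_mul,
    Finset.sum_sub_distrib]
  simp [Finset.sum_neg_distrib]
  ring

/-- the space of the certificates -/
abbrev UU (r N : ℕ) : Type := (Fin N → ℚ) × ℚ × (Fin r → ℚ) × ℚ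

/-- strong duality -/
theorem duality {r N : ℕ} (v : Fin r → Fin N → ℕ) (ω : Fin r → ℕ) (l : Fin r → ℚ)
    (hl : ∀ j, 0 ≤ l j) :
    ∃ (μ : Fin r → ℚ) (w : Fin N → ℚ) (a : ℚ), (∀ j, 0 ≤ μ j) ∧
      (∀ i, ∑ j, μ j * (v j i : ℚ) = ∑ j, l j * (v j i : ℚ)) ∧ (∑ j, μ j = ∑ j, l j) ∧
      (∀ j, a ≤ ∑ i, w i * (v j i : ℚ) + (ω j : ℚ)) ∧
      ∑ j, μ j * (∑ i, w i * (v j i : ℚ) + (ω j : ℚ) - a) ≤ 0 := by
  set b : Fin N → ℚ := fun i => ∑ j, l j * (v j i : ℚ) with hb
  set k : ℚ := ∑ j, l j with hk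
  -- the functionals on `(x, y, z, s)`
  obtain ⟨X, hX⟩ : ∃ X : Fin N → (UU r N →ₗ[ℚ] ℚ), ∀ i u, X i u = u.1 i :=
    ⟨fun i => (LinearMap.proj i).comp (LinearMap.fst ℚ _ _), fun _ _ => rfl⟩
  obtain ⟨Y, hY⟩ : ∃ Y : UU r N →ₗ[ℚ] ℚ, ∀ u, Y u = u.2.1 :=
    ⟨(LinearMap.fst ℚ _ _).comp (LinearMap.snd ℚ _ _), fun _ => rfl⟩
  obtain ⟨Z, hZ⟩ : ∃ Z : Fin r → (UU r N →ₗ[ℚ] ℚ), ∀ i u, Z i u = u.2.2.1 i :=
    ⟨fun j => (LinearMap.proj j).comp ((LinearMap.fst ℚ _ _).comp
      ((LinearMap.snd ℚ _ _).comp (LinearMap.snd ℚ _ _))), fun _ _ => rfl⟩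
  obtain ⟨S, hS⟩ : ∃ S : UU r N →ₗ[ℚ] ℚ, ∀ u, S u = u.2.2.2 :=
    ⟨(LinearMap.snd ℚ _ _).comp ((LinearMap.snd ℚ _ _).comp (LinearMap.snd ℚ _ _)),
      fun _ => rfl⟩
  let ℓ : Fin r ⊕ (Fin r ⊕ Unit) → (UU r N →ₗ[ℚ] ℚ) := Sum.elim
    (fun j => ∑ i, (v j i : ℚ) • X i + Y + (ω j : ℚ) • S) (Sum.elim Z fun _ => S)
  let d : Fin N ⊕ Unit → (UU r N →ₗ[ℚ] ℚ) := Sum.elim
    (fun i => -(∑ j, (v j i : ℚ) • Z j) + b i • S) (fun _ => ∑ j, Z j - k • S)
  let f : UU r N →ₗ[ℚ] ℚ := ∑ i, b i • X i + k • Y + ∑ j, (ω j : ℚ) • Z j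
  obtain ⟨m, c, hm, hf⟩ := farkas_free ℓ d f (by
    rintro ⟨x, y, z, s⟩ h1 h2
    have e1 : ∀ j, ∑ i, (v j i : ℚ) * x i + y + (ω j : ℚ) * s ≤ 0 := fun j => by
      have := h1 (Sum.inl j)
      simpa [ℓ, hX, hY, hS, LinearMap.sum_apply] using this
    have e2 : ∀ j, z j ≤ 0 := fun j => by
      have := h1 (Sum.inr (Sum.inl j))
      simpa [ℓ, hZ] using this
    have e3 : s ≤ 0 := by
      have := h1 (Sum.inr (Sum.inr ()))
      simpa [ℓ, hS] using this
    have e4 : ∀ i, ∑ j, (v j i : ℚ) * z j = b i * s := fun i => by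
      have := h2 (Sum.inl i)
      simp only [d, Sum.elim_inl, LinearMap.add_apply, LinearMap.neg_apply, LinearMap.sum_apply,
        LinearMap.smul_apply, hZ, hS, smul_eq_mul] at this
      linarith
    have e5 : ∑ j, z j = k * s := by
      have := h2 (Sum.inr ())
      simp only [d, Sum.elim_inr, LinearMap.sub_apply, LinearMap.sum_apply,
        LinearMap.smul_apply, hZ, hS, smul_eq_mul] at this
      linarith
    have e6 : f (x, y, z, s) = ∑ i, b i * x i + k * y + ∑ j, (ω j : ℚ) * z j := by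
      simp [f, hX, hY, hZ, LinearMap.sum_apply]
    rw [e6]
    rcases lt_or_eq_of_le e3 with hs | hs
    · -- s < 0
      have key : s * (∑ i, b i * x i + k * y) =
          ∑ j, z j * (∑ i, (v j i : ℚ) * x i + y) := by
        simp only [mul_add, Finset.sum_add_distrib, ← Finset.sum_mul, e5]
        have : ∑ j, z j * ∑ i, (v j i : ℚ) * x i = ∑ i, (∑ j, (v j i : ℚ) * z j) * x i := by
          simp only [Finset.mul_sum, Finset.sum_mul]
          rw [Finset.sum_comm]
          exact Finset.sum_congr rfl fun i _ => Finset.sum_congr rfl fun j _ => by ring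
        rw [this]
        simp only [e4]
        rw [Finset.mul_sum]
        have h3 : ∑ i, b i * s * x i = ∑ i, s * (b i * x i) :=
          Finset.sum_congr rfl fun i _ => by ring
        rw [h3]
        ring
      have h4 : -(s * ∑ j, (ω j : ℚ) * z j) ≤ ∑ j, z j * (∑ i, (v j i : ℚ) * x i + y) := by
        rw [Finset.mul_sum, ← Finset.sum_neg_distrib]
        refine Finset.sum_le_sum fun j _ => ?_
        have := mul_le_mul_of_nonpos_left (e1 j) (e2 j)
        nlinarith [this]
      have h5 : 0 ≤ s * (∑ i, b i * x i + k * y + ∑ j, (ω j : ℚ) * z j) := by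
        rw [mul_add, key]
        linarith
      by_contra hcon
      push Not at hcon
      have := mul_neg_of_neg_of_pos hs hcon
      linarith
    · subst hs
      have h3 : ∑ i, b i * x i + k * y = ∑ j, l j * (∑ i, (v j i : ℚ) * x i + y) := by
        simp only [mul_add, Finset.sum_add_distrib, ← Finset.sum_mul]
        congr 1
        simp only [hb, Finset.sum_mul, Finset.mul_sum]
        rw [Finset.sum_comm]
        exact Finset.sum_congr rfl fun i _ => Finset.sum_congr rfl fun j _ => by ring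
      rw [h3]
      have h4 : ∑ j, l j * (∑ i, (v j i : ℚ) * x i + y) ≤ 0 :=
        Finset.sum_nonpos fun j _ => mul_nonpos_of_nonneg_of_nonpos (hl j) (by
          have := e1 j
          simpa using this)
      have h5 : ∑ j, (ω j : ℚ) * z j ≤ 0 :=
        Finset.sum_nonpos fun j _ => mul_nonpos_of_nonneg_of_nonpos (by positivity) (e2 j)
      linarith)
  have hf' : ∀ (x : Fin N → ℚ) (y : ℚ) (z : Fin r → ℚ) (s : ℚ),
      ∑ i, b i * x i + k * y + ∑ j, (ω j : ℚ) * z j =
        ∑ j, m (Sum.inl j) * (∑ i, (v j i : ℚ) * x i + y + (ω j : ℚ) * s) +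
        (∑ j, m (Sum.inr (Sum.inl j)) * z j + m (Sum.inr (Sum.inr ())) * s) +
        (∑ i, c (Sum.inl i) * (-(∑ j, (v j i : ℚ) * z j) + b i * s) +
          c (Sum.inr ()) * (∑ j, z j - k * s)) := by
    intro x y z s
    have := hf (x, y, z, s)
    simpa [f, ℓ, d, hX, hY, hZ, hS, LinearMap.sum_apply, Fintype.sum_sum_type] using this
  refine ⟨fun j => m (Sum.inl j), fun i => c (Sum.inl i), c (Sum.inr ()), fun j => hm _,
    fun i => ?_, ?_, fun j => ?_, ?_⟩
  · have := hf' (Pi.single i 1) 0 0 0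
    simp [Pi.single_apply] at this
    rw [← this]
  · have := hf' 0 1 0 0
    simpa using this.symm
  · have := hf' 0 0 (Pi.single j 1) 0
    simp [Pi.single_apply] at this
    have h0 := hm (Sum.inr (Sum.inl j))
    linarith
  · have h1 := hf' 0 0 0 1
    have h0 := hm (Sum.inr (Sum.inr ()))
    have h2 : ∀ i, ∑ j, m (Sum.inl j) * (v j i : ℚ) = b i := by
      intro i
      have := hf' (Pi.single i 1) 0 0 0
      simp [Pi.single_apply] at this
      rw [← this]
    have h3 : ∑ j, m (Sum.inl j) = k := by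
      have := hf' 0 1 0 0
      simpa using this.symm
    simp only [Pi.zero_apply, mul_zero, Finset.sum_const_zero, add_zero, mul_one, zero_add,
      neg_zero, zero_sub] at h1
    have h4 : ∑ j, m (Sum.inl j) * (∑ i, c (Sum.inl i) * (v j i : ℚ) + (ω j : ℚ) -
        c (Sum.inr ())) = ∑ i, c (Sum.inl i) * b i + ∑ j, m (Sum.inl j) * (ω j : ℚ) -
        k * c (Sum.inr ()) := by
      simp only [mul_add, mul_sub, Finset.sum_add_distrib, Finset.sum_sub_distrib,
        ← Finset.sum_mul, h3]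
      congr 2
      simp only [← h2, Finset.mul_sum]
      rw [Finset.sum_comm]
      exact Finset.sum_congr rfl fun i _ => Finset.sum_congr rfl fun j _ => by ring
    rw [h4]
    linarith

/-- the weighted defect -/
theorem defect {r N : ℕ} (v : Fin r → Fin N → ℕ) (ω : Fin r → ℚ) (μ : Fin r → ℚ)
    (w : Fin N → ℚ) (a : ℚ) :
    ∑ j, μ j * (∑ i, w i * (v j i : ℚ) + ω j - a) =
      ∑ i, w i * (∑ j, μ j * (v j i : ℚ)) + ∑ j, μ j * ω j - a * ∑ j, μ j := by
  simp only [mul_add, mul_sub, Finset.sum_add_distrib, Finset.sum_sub_distrib]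
  congr 1
  · congr 1
    simp only [Finset.mul_sum]
    rw [Finset.sum_comm]
    exact Finset.sum_congr rfl fun i _ => Finset.sum_congr rfl fun j _ => by ring
  · rw [Finset.mul_sum]
    exact Finset.sum_congr rfl fun j _ => by ring

theorem t_LP : S_LP := by
  intro r N v ω hG wk mk hwk hmk l hl hlK
  obtain ⟨μ, w, a, hμ, hv, hs, hwa, hle⟩ := duality v ω l hl
  -- complementary slackness
  have hcs : ∀ j, μ j * (∑ i, w i * (v j i : ℚ) + (ω j : ℚ) - a) = 0 := by
    have hnn : ∀ j ∈ Finset.univ, 0 ≤ μ j * (∑ i, w i * (v j i : ℚ) + (ω j : ℚ) - a) :=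
      fun j _ => mul_nonneg (hμ j) (by linarith [hwa j])
    have h0 : ∑ j, μ j * (∑ i, w i * (v j i : ℚ) + (ω j : ℚ) - a) = 0 :=
      le_antisymm hle (Finset.sum_nonneg hnn)
    intro j
    exact (Finset.sum_eq_zero_iff_of_nonneg hnn).1 h0 j (Finset.mem_univ j)
  -- the support is in the face
  have hK : ∀ j, μ j ≠ 0 → ∑ i, wk i * (v j i : ℚ) = mk := by
    have hnn : ∀ j ∈ Finset.univ, 0 ≤ μ j * (∑ i, wk i * (v j i : ℚ) + 0 - mk) :=
      fun j _ => mul_nonneg (hμ j) (by linarith [hmk j])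
    have h0 : ∑ j, μ j * (∑ i, wk i * (v j i : ℚ) + 0 - mk) = 0 := by
      have e1 := defect v (fun _ => 0) μ wk mk
      have e2 := defect v (fun _ => 0) l wk mk
      have e3 : ∑ j, l j * (∑ i, wk i * (v j i : ℚ) + 0 - mk) = 0 := by
        refine Finset.sum_eq_zero fun j _ => ?_
        by_cases h : l j = 0
        · rw [h, zero_mul]
        · rw [hlK j h]
          ring
      simp only [hv, hs] at e1
      rw [e1]
      rw [e3] at e2
      simp only [mul_zero, Finset.sum_const_zero, add_zero] at e2 ⊢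
      linarith
    intro j hj
    have := (Finset.sum_eq_zero_iff_of_nonneg hnn).1 h0 j (Finset.mem_univ j)
    rcases mul_eq_zero.1 this with h | h
    · exact absurd h hj
    · linarith
  refine ⟨Finset.univ.filter fun j => μ j ≠ 0, ⟨?_, ?_, μ, ?_, ?_, hv, hs⟩, ?_⟩
  · intro j hj
    exact hK j (Finset.mem_filter.1 hj).2
  · intro ρ
    obtain ⟨M, hM0, hM⟩ : ∃ M : ℚ, 0 ≤ M ∧ ∀ i, ρ ≤ w i + M * wk i := by
      refine ⟨∑ i, |ρ - w i| / wk i, Finset.sum_nonneg fun i _ =>
        div_nonneg (abs_nonneg _) (hwk i).le, fun i => ?_⟩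
      have h1 : |ρ - w i| / wk i ≤ ∑ i, |ρ - w i| / wk i :=
        Finset.single_le_sum (f := fun i => |ρ - w i| / wk i)
          (fun i _ => div_nonneg (abs_nonneg _) (hwk i).le) (Finset.mem_univ i)
      have h2 := mul_le_mul_of_nonneg_right h1 (hwk i).le
      rw [div_mul_cancel₀ _ (hwk i).ne'] at h2
      have h3 := le_abs_self (ρ - w i)
      linarith
    have hsum : ∀ j, ∑ i, (w i + M * wk i) * (v j i : ℚ) =
        ∑ i, w i * (v j i : ℚ) + M * ∑ i, wk i * (v j i : ℚ) := by
      intro j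
      rw [Finset.mul_sum, ← Finset.sum_add_distrib]
      exact Finset.sum_congr rfl fun i _ => by ring
    refine ⟨fun i => w i + M * wk i, a + M * mk, hM, fun j => ?_, fun j hj => ?_⟩
    · rw [hsum]
      have h1 := hwa j
      have h2 := mul_le_mul_of_nonneg_left (hmk j) hM0
      linarith
    · rw [hsum]
      have hj' := (Finset.mem_filter.1 hj).2
      have h1 := hcs j
      rw [hK j hj']
      rcases mul_eq_zero.1 h1 with h | h
      · exact absurd h hj'
      · linarith
  · intro j hj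
    by_contra h
    exact hj (Finset.mem_filter.2 ⟨Finset.mem_univ j, h⟩)
  · intro j hj
    exact lt_of_le_of_ne (hμ j) (Ne.symm (Finset.mem_filter.1 hj).2)
  · -- uniqueness
    rintro I' ⟨-, hT, μ', h0', hp', hv', hs'⟩
    obtain ⟨w', a', -, hwa', heq'⟩ := hT 0
    have hμ' : ∀ j, 0 ≤ μ' j := fun j => by
      by_cases hj : j ∈ I'
      · exact (hp' j hj).le
      · rw [h0' j hj]
    have hcs' : ∀ j, μ' j * (∑ i, w' i * (v j i : ℚ) + (ω j : ℚ) - a') = 0 := fun j => by
      by_cases hj : j ∈ I'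
      · rw [heq' j hj]
        ring
      · rw [h0' j hj, zero_mul]
    have d1 := defect v (fun j => (ω j : ℚ)) μ w a
    have d2 := defect v (fun j => (ω j : ℚ)) μ w' a'
    have d3 := defect v (fun j => (ω j : ℚ)) μ' w a
    have d4 := defect v (fun j => (ω j : ℚ)) μ' w' a'
    simp only [hv, hs] at d1 d2
    simp only [hv', hs'] at d3 d4
    rw [Finset.sum_eq_zero fun j _ => hcs j] at d1
    rw [Finset.sum_eq_zero fun j _ => hcs' j] at d4
    have n2 : 0 ≤ ∑ j, μ j * (∑ i, w' i * (v j i : ℚ) + (ω j : ℚ) - a') :=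
      Finset.sum_nonneg fun j _ => mul_nonneg (hμ j) (by linarith [hwa' j])
    have hnn : ∀ j ∈ Finset.univ, 0 ≤ μ' j * (∑ i, w i * (v j i : ℚ) + (ω j : ℚ) - a) :=
      fun j _ => mul_nonneg (hμ' j) (by linarith [hwa j])
    have n3 := Finset.sum_nonneg hnn
    have z3 : ∑ j, μ' j * (∑ i, w i * (v j i : ℚ) + (ω j : ℚ) - a) = 0 := by linarith
    have hcs3 : ∀ j, μ' j * (∑ i, w i * (v j i : ℚ) + (ω j : ℚ) - a) = 0 := fun j =>
      (Finset.sum_eq_zero_iff_of_nonneg hnn).1 z3 j (Finset.mem_univ j)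
    -- the set of the equalities is affinely independent
    have hInd : Ind v (Finset.univ.filter fun j => ∑ i, w i * (v j i : ℚ) + (ω j : ℚ) = a) := by
      refine hG _ fun c hc => ?_
      obtain ⟨c1, c2, c3⟩ := hc
      have dc := defect v (fun j => (ω j : ℚ)) c w a
      rw [Finset.sum_eq_zero (s := Finset.univ) (f := fun j =>
        c j * (∑ i, w i * (v j i : ℚ) + (ω j : ℚ) - a)) fun j _ => by
          by_cases hj : ∑ i, w i * (v j i : ℚ) + (ω j : ℚ) = a
          · rw [hj]
            ring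
          · rw [c1 j (by simpa using hj), zero_mul]] at dc
      simp only [c3, c2, mul_zero, Finset.sum_const_zero] at dc
      linarith
    have hz : (fun j => μ j - μ' j) = 0 := by
      refine hInd _ ⟨fun j hj => ?_, ?_, fun i => ?_⟩
      · have hne : ∑ i, w i * (v j i : ℚ) + (ω j : ℚ) - a ≠ 0 := fun h =>
          hj (Finset.mem_filter.2 ⟨Finset.mem_univ j, by linarith⟩)
        have h1 := (mul_eq_zero.1 (hcs j)).resolve_right hne
        have h2 := (mul_eq_zero.1 (hcs3 j)).resolve_right hne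
        simp only [h1, h2, sub_zero]
      · rw [Finset.sum_sub_distrib, hs, hs', sub_self]
      · simp only [sub_mul, Finset.sum_sub_distrib, hv, hv', sub_self]
    ext j
    have hj : μ j = μ' j := by
      have := congrFun hz j
      simp only [Pi.zero_apply] at this
      linarith
    simp only [Finset.mem_filter, Finset.mem_univ, true_and]
    rw [hj]
    constructor
    · intro h
      exact (hp' j h).ne'
    · intro h
      by_contra hn
      exact h (h0' j hn)

end Pool.Agent.Y921.HX
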